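import Pool.Agent.Work.MP_2738db_nt_ZZ.Interface
import Pool.Agent.Work.MP_b0c12c_nt_helper41.Mert

/-!
FEW (zz_blocks): few integers have at most one large prime factor.  Hall-Tenenbaum for
`g n = 2 ^ (- number of large primes dividing n)`.
-/

set_option autoImplicit false

namespace Pool.Agent.Work.MP_2738db_nt_ZZ.helper48

open Finset ArithmeticFunction
open Pool.Agent.Work.MP_b0c12c_nt_helper41 (mertens2 SS)

/-- number of primes dividing `n` above `w` -/
noncomputable def big (w : ℝ) (n : ℕ) : ℕ := (n.primeFactors.filter (fun p : ℕ => w < (p : ℝ))).card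

/-- the weight, zero at zero -/
noncomputable def gg (w : ℝ) : ArithmeticFunction ℝ :=
  ⟨fun n => if n = 0 then 0 else (1 / 2 : ℝ) ^ big w n, by simp⟩

theorem gg_apply (w : ℝ) {n : ℕ} (hn : n ≠ 0) : gg w n = (1 / 2 : ℝ) ^ big w n := by
  simp [gg, hn]

theorem gg_zero (w : ℝ) : gg w 0 = 0 := by simp

theorem gg_one (w : ℝ) : gg w 1 = 1 := by
  rw [gg_apply w one_ne_zero]
  simp [big]

theorem gg_nonneg (w : ℝ) (n : ℕ) : 0 ≤ gg w n := by
  by_cases hn : n = 0
  · simp [hn]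
  · rw [gg_apply w hn]; positivity

theorem gg_le_one (w : ℝ) (n : ℕ) : gg w n ≤ 1 := by
  by_cases hn : n = 0
  · simp [hn]
  · rw [gg_apply w hn]
    exact pow_le_one₀ (by norm_num) (by norm_num)

theorem gg_mul_coprime (w : ℝ) {m n : ℕ} (h : Nat.Coprime m n) : gg w (m * n) = gg w m * gg w n := by
  by_cases hm : m = 0
  · simp [hm]
  by_cases hn : n = 0
  · simp [hn]
  rw [gg_apply w (mul_ne_zero hm hn), gg_apply w hm, gg_apply w hn, ← pow_add]
  congr 1
  unfold big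
  rw [h.primeFactors_mul, Finset.filter_union, Finset.card_union_of_disjoint]
  exact Finset.disjoint_filter_filter h.disjoint_primeFactors

theorem gg_mul_le (w : ℝ) {d m : ℕ} (hd : d ≠ 0) (hm : m ≠ 0) : gg w (m * d) ≤ gg w m := by
  rw [gg_apply w (mul_ne_zero hm hd), gg_apply w hm]
  refine pow_le_pow_of_le_one (by norm_num) (by norm_num) ?_
  unfold big
  refine Finset.card_le_card (Finset.filter_subset_filter _ ?_)
  exact Nat.primeFactors_mono (Dvd.intro _ rfl) (mul_ne_zero hm hd)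

/-- first half of Hall-Tenenbaum -/
theorem hall1 (w : ℝ) (N : ℕ) : ∑ n ∈ Ioc 0 N, gg w n * Real.log n ≤
    (Real.log 4 + 4) * N * ∑ n ∈ Ioc 0 N, gg w n / n := by
  have h1 : ∀ n ∈ Ioc 0 N, gg w n * Real.log n ≤ (gg w * Λ) n := by
    intro n hn
    rw [mem_Ioc] at hn
    rw [← vonMangoldt_sum, ArithmeticFunction.mul_apply, Finset.mul_sum,
      Nat.sum_divisorsAntidiagonal' (fun a b => gg w a * Λ b)]
    refine Finset.sum_le_sum fun d hd => ?_
    have hd' := Nat.mem_divisors.1 hd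
    have hd0 : d ≠ 0 := fun h => by rw [h] at hd'; exact hd'.2 (zero_dvd_iff.1 hd'.1)
    have hmd : n / d * d = n := Nat.div_mul_cancel hd'.1
    have hm0 : n / d ≠ 0 := fun h => by rw [h, zero_mul] at hmd; exact hd'.2 hmd.symm
    have := gg_mul_le w hd0 hm0
    rw [hmd] at this
    exact mul_le_mul_of_nonneg_right this vonMangoldt_nonneg
  refine (Finset.sum_le_sum h1).trans ?_
  rw [sum_Ioc_mul_eq_sum_sum, Finset.mul_sum]
  refine Finset.sum_le_sum fun n hn => ?_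
  rw [mem_Ioc] at hn
  have hn0 : (0 : ℝ) < n := by exact_mod_cast hn.1
  have h2 : ∑ m ∈ Ioc 0 (N / n), Λ m ≤ (Real.log 4 + 4) * ((N : ℝ) / n) := by
    have := Chebyshev.psi_le_const_mul_self (x := (N : ℝ) / n) (by positivity)
    rw [Chebyshev.psi, Nat.floor_div_eq_div] at this
    exact this
  calc gg w n * ∑ m ∈ Ioc 0 (N / n), Λ m ≤ gg w n * ((Real.log 4 + 4) * ((N : ℝ) / n)) :=
        mul_le_mul_of_nonneg_left h2 (gg_nonneg w n)
    _ = (Real.log 4 + 4) * N * (gg w n / n) := by ring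

/-- Hall-Tenenbaum -/
theorem hall (w : ℝ) (N : ℕ) : Real.log N * ∑ n ∈ Ioc 0 N, gg w n ≤
    (Real.log 4 + 5) * N * ∑ n ∈ Ioc 0 N, gg w n / n := by
  have h1 := hall1 w N
  have h2 : ∑ n ∈ Ioc 0 N, gg w n * (Real.log N - Real.log n) ≤
      N * ∑ n ∈ Ioc 0 N, gg w n / n := by
    rw [Finset.mul_sum]
    refine Finset.sum_le_sum fun n hn => ?_
    rw [mem_Ioc] at hn
    have hn0 : (0 : ℝ) < n := by exact_mod_cast hn.1
    have hN0 : (0 : ℝ) < N := by exact_mod_cast (by omega : 0 < N)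
    have h3 : Real.log N - Real.log n ≤ (N : ℝ) / n := by
      rw [← Real.log_div (by positivity) (by positivity)]
      exact (Real.log_le_sub_one_of_pos (by positivity)).trans (by linarith)
    calc gg w n * (Real.log N - Real.log n) ≤ gg w n * ((N : ℝ) / n) :=
          mul_le_mul_of_nonneg_left h3 (gg_nonneg w n)
      _ = N * (gg w n / n) := by ring
  have h3 : Real.log N * ∑ n ∈ Ioc 0 N, gg w n =
      ∑ n ∈ Ioc 0 N, gg w n * Real.log n + ∑ n ∈ Ioc 0 N, gg w n * (Real.log N - Real.log n) := by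
    rw [← Finset.sum_add_distrib, Finset.mul_sum]
    refine Finset.sum_congr rfl fun n _ => by ring
  rw [h3]
  have e : (Real.log 4 + 5) * N * ∑ n ∈ Ioc 0 N, gg w n / n =
      (Real.log 4 + 4) * N * ∑ n ∈ Ioc 0 N, gg w n / n + N * ∑ n ∈ Ioc 0 N, gg w n / n := by ring
  rw [e]
  exact add_le_add h1 h2

/-- `g (p ^ e)` -/
theorem gg_prime_pow (w : ℝ) {p e : ℕ} (hp : p.Prime) (he : e ≠ 0) :
    gg w (p ^ e) = if w < (p : ℝ) then 1 / 2 else 1 := by
  rw [gg_apply w (pow_ne_zero _ hp.ne_zero)]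
  unfold big
  rw [Nat.primeFactors_prime_pow he hp, Finset.filter_singleton]
  split_ifs <;> simp

/-- the local factor -/
theorem local_factor (w : ℝ) {p : ℕ} (hp : p.Prime) :
    Summable (fun e : ℕ => gg w (p ^ e) / ((p ^ e : ℕ) : ℝ)) ∧
    ∑' e : ℕ, gg w (p ^ e) / ((p ^ e : ℕ) : ℝ) ≤
      Real.exp ((if w < (p : ℝ) then 1 / 2 else 1) / p + 1 / ((p : ℝ) * (p - 1))) := by
  set c : ℝ := if w < (p : ℝ) then 1 / 2 else 1 with hc
  have hc0 : 0 ≤ c := by rw [hc]; split_ifs <;> norm_num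
  have hc1 : c ≤ 1 := by rw [hc]; split_ifs <;> norm_num
  have hp2 : (2 : ℝ) ≤ p := by exact_mod_cast hp.two_le
  have hr0 : (0 : ℝ) ≤ (p : ℝ)⁻¹ := by positivity
  have hr1 : (p : ℝ)⁻¹ < 1 := inv_lt_one_of_one_lt₀ (by linarith)
  have hterm : ∀ e : ℕ, gg w (p ^ (e + 1)) / ((p ^ (e + 1) : ℕ) : ℝ) =
      c / p * ((p : ℝ)⁻¹) ^ e := by
    intro e
    rw [gg_prime_pow w hp (Nat.succ_ne_zero e), ← hc]
    push_cast
    rw [pow_succ, inv_pow]
    field_simp
  have hsum1 : Summable (fun e : ℕ => gg w (p ^ (e + 1)) / ((p ^ (e + 1) : ℕ) : ℝ)) := by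
    simp_rw [hterm]
    exact (summable_geometric_of_lt_one hr0 hr1).mul_left _
  have hsum : Summable (fun e : ℕ => gg w (p ^ e) / ((p ^ e : ℕ) : ℝ)) :=
    (summable_nat_add_iff 1).1 hsum1
  refine ⟨hsum, ?_⟩
  rw [hsum.tsum_eq_zero_add]
  simp_rw [hterm]
  rw [tsum_mul_left, tsum_geometric_of_lt_one hr0 hr1]
  have h0 : gg w (p ^ 0) / ((p ^ 0 : ℕ) : ℝ) = 1 := by simp [gg_one]
  rw [h0]
  have hp1 : (0 : ℝ) < (p : ℝ) - 1 := by linarith
  have h1 : c / p * (1 - (p : ℝ)⁻¹)⁻¹ ≤ c / p + 1 / ((p : ℝ) * (p - 1)) := by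
    have : c / p * (1 - (p : ℝ)⁻¹)⁻¹ = c / p + c / ((p : ℝ) * (p - 1)) := by
      field_simp
      ring
    rw [this]
    gcongr
  calc 1 + c / p * (1 - (p : ℝ)⁻¹)⁻¹ ≤ c / p + 1 / ((p : ℝ) * (p - 1)) + 1 := by linarith
    _ ≤ Real.exp (c / p + 1 / ((p : ℝ) * (p - 1))) := Real.add_one_le_exp _

/-- the sum of `g n / n` through the Euler product -/
theorem euler (w : ℝ) (N : ℕ) : ∑ n ∈ Ioc 0 N, gg w n / n ≤
    Real.exp (∑ p ∈ (Ioc 0 N).filter Nat.Prime,
      ((if w < (p : ℝ) then 1 / 2 else 1) / p + 1 / ((p : ℝ) * (p - 1)))) := by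
  set f : ℕ → ℝ := fun n => gg w n / n with hf
  have hf1 : f 1 = 1 := by simp [hf, gg_one]
  have hmul : ∀ {m n : ℕ}, Nat.Coprime m n → f (m * n) = f m * f n := by
    intro m n h
    simp only [hf]
    rw [gg_mul_coprime w h]
    push_cast
    ring
  have hnn : ∀ n, 0 ≤ f n := fun n => div_nonneg (gg_nonneg w n) (Nat.cast_nonneg n)
  have hs : ∀ {p : ℕ}, p.Prime → Summable (fun n : ℕ => ‖f (p ^ n)‖) := by
    intro p hp
    have := (local_factor w hp).1
    simpa only [hf, Real.norm_eq_abs, abs_of_nonneg (hnn _)] using this.norm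
  obtain ⟨hS, hH⟩ := EulerProduct.summable_and_hasSum_smoothNumbers_prod_primesBelow_tsum
    hf1 hmul hs (N + 1)
  have h1 : ∑ n ∈ Ioc 0 N, f n ≤ ∏ p ∈ (N + 1).primesBelow, ∑' n : ℕ, f (p ^ n) := by
    rw [← hH.tsum_eq]
    have hmem : ∀ n ∈ Ioc 0 N, n ∈ (N + 1).smoothNumbers := by
      intro n hn
      rw [mem_Ioc] at hn
      exact Nat.mem_smoothNumbers_of_lt hn.1 (by omega)
    have : ∑ n ∈ Ioc 0 N, f n = ∑ n ∈ (Ioc 0 N).attach.map
        ⟨fun n => (⟨n.1, hmem n.1 n.2⟩ : (N + 1).smoothNumbers), fun a b hab =>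
          Subtype.ext (congrArg (fun z : (N + 1).smoothNumbers => (z : ℕ)) hab)⟩, f (n : ℕ) := by
      rw [Finset.sum_map]
      simp only [Function.Embedding.coeFn_mk]
      exact (Finset.sum_attach (Ioc 0 N) f).symm
    rw [this]
    exact hH.summable.sum_le_tsum _ fun n _ => hnn _
  refine h1.trans ?_
  rw [Real.exp_sum]
  have hpb : (N + 1).primesBelow = (Ioc 0 N).filter Nat.Prime := by
    ext p
    simp only [Nat.primesBelow, mem_filter, mem_range, mem_Ioc]
    constructor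
    · rintro ⟨h, hp⟩
      exact ⟨⟨hp.pos, by omega⟩, hp⟩
    · rintro ⟨⟨_, h⟩, hp⟩
      exact ⟨by omega, hp⟩
  rw [hpb]
  refine Finset.prod_le_prod (fun p _ => tsum_nonneg fun n => hnn _) fun p hp => ?_
  exact (local_factor w (mem_filter.1 hp).2).2

/-- telescoping -/
theorem tele (N : ℕ) : ∑ p ∈ (Ioc 0 N).filter Nat.Prime, 1 / ((p : ℝ) * (p - 1)) ≤ 1 := by
  have h : ∀ N : ℕ, 1 ≤ N → ∑ p ∈ (Ioc 0 N).filter Nat.Prime, 1 / ((p : ℝ) * (p - 1)) ≤
      1 - 1 / (N : ℝ) := by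
    intro N hN
    induction N, hN using Nat.le_induction with
    | base =>
      have : (Ioc 0 1).filter Nat.Prime = ∅ := by decide
      rw [this]; simp
    | succ n hn ih =>
      have hn0 : (0 : ℝ) < n := by exact_mod_cast hn
      rw [← Finset.insert_Ioc_right_eq_Ioc_add_one (by omega : 0 ≤ n), filter_insert]
      have hstep : 1 - 1 / (n : ℝ) + 1 / (((n + 1 : ℕ) : ℝ) * (((n + 1 : ℕ) : ℝ) - 1)) =
          1 - 1 / ((n + 1 : ℕ) : ℝ) := by
        have e0 : ((n + 1 : ℕ) : ℝ) - 1 = n := by push_cast; ring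
        rw [e0]
        have e1 : 1 / (((n + 1 : ℕ) : ℝ) * n) = 1 / (n : ℝ) - 1 / ((n + 1 : ℕ) : ℝ) := by
          push_cast
          field_simp
          ring
        rw [e1]; ring
      split_ifs with hp
      · rw [sum_insert (by simp), ← hstep]
        linarith
      · refine ih.trans ?_
        have : 1 / ((n + 1 : ℕ) : ℝ) ≤ 1 / (n : ℝ) := by
          apply one_div_le_one_div_of_le hn0
          push_cast; linarith
        linarith
  rcases Nat.eq_zero_or_pos N with rfl | hN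
  · simp
  · have := h N hN
    have h1 : (0 : ℝ) ≤ 1 / (N : ℝ) := by positivity
    linarith

/-- the sum of `g n / n` -/
theorem sum_gg : ∃ C : ℝ, 0 < C ∧ ∀ (w : ℝ) (N : ℕ), 2 ≤ w → w ≤ N →
    ∑ n ∈ Ioc 0 N, gg w n / n ≤ C * Real.sqrt (Real.log w * Real.log N) := by
  obtain ⟨C, hC0, hC⟩ := mertens2
  set L := Real.log 2 with hL
  have hL0 : 0 < L := Real.log_pos (by norm_num)
  refine ⟨Real.exp (1 / 2 + 2 * (C / L) - Real.log L + 1 + 2), Real.exp_pos _,
    fun w N hw hwN => ?_⟩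
  set v : ℕ := ⌊w⌋₊ with hv
  have hw0 : 0 ≤ w := by linarith
  have hv2 : 2 ≤ v := Nat.le_floor (by exact_mod_cast hw)
  have hvw : (v : ℝ) ≤ w := Nat.floor_le hw0
  have hvN : v ≤ N := by
    have : (v : ℝ) ≤ N := hvw.trans hwN
    exact_mod_cast this
  have hlw : 0 < Real.log w := Real.log_pos (by linarith)
  have hN1 : (1 : ℝ) < N := by linarith
  have hlN : 0 < Real.log N := Real.log_pos hN1
  have hlv : L ≤ Real.log v := Real.log_le_log (by norm_num) (by exact_mod_cast hv2)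
  have hlvw : Real.log v ≤ Real.log w := Real.log_le_log (by positivity) hvw
  refine (euler w N).trans ?_
  rw [Real.sqrt_eq_rpow, Real.rpow_def_of_pos (by positivity), ← Real.exp_add]
  apply Real.exp_le_exp.2
  rw [Finset.sum_add_distrib, Real.log_mul hlw.ne' hlN.ne']
  have h1 := tele N
  -- split the sum
  have hsplit : ∑ p ∈ (Ioc 0 N).filter Nat.Prime, (if w < (p : ℝ) then (1 : ℝ) / 2 else 1) / p =
      ∑ p ∈ (Ioc 0 2).filter Nat.Prime, 1 / (p : ℝ) + ∑ p ∈ (Ioc 2 v).filter Nat.Prime, 1 / (p : ℝ) +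
        (1 / 2) * ∑ p ∈ (Ioc v N).filter Nat.Prime, 1 / (p : ℝ) := by
    have hu : (Ioc 0 N).filter Nat.Prime = ((Ioc 0 2).filter Nat.Prime ∪ (Ioc 2 v).filter Nat.Prime) ∪
        (Ioc v N).filter Nat.Prime := by
      ext p
      simp only [mem_filter, mem_Ioc, mem_union]
      constructor
      · rintro ⟨⟨h1, h2⟩, h3⟩
        by_cases ha : p ≤ 2
        · exact Or.inl (Or.inl ⟨⟨h1, ha⟩, h3⟩)
        · by_cases hb : p ≤ v
          · exact Or.inl (Or.inr ⟨⟨by omega, hb⟩, h3⟩)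
          · exact Or.inr ⟨⟨by omega, h2⟩, h3⟩
      · rintro ((⟨⟨h1, h2⟩, h3⟩ | ⟨⟨h1, h2⟩, h3⟩) | ⟨⟨h1, h2⟩, h3⟩)
        · exact ⟨⟨h1, by omega⟩, h3⟩
        · exact ⟨⟨by omega, by omega⟩, h3⟩
        · exact ⟨⟨by omega, h2⟩, h3⟩
    rw [hu, sum_union, sum_union]
    · congr 1
      · congr 1
        · refine Finset.sum_congr rfl fun p hp => ?_
          rw [mem_filter, mem_Ioc] at hp
          have : ¬ w < (p : ℝ) := by
            have : (p : ℝ) ≤ 2 := by exact_mod_cast hp.1.2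
            linarith
          rw [if_neg this]
        · refine Finset.sum_congr rfl fun p hp => ?_
          rw [mem_filter, mem_Ioc] at hp
          have : ¬ w < (p : ℝ) := by
            have : (p : ℝ) ≤ v := by exact_mod_cast hp.1.2
            linarith
          rw [if_neg this]
      · rw [Finset.mul_sum]
        refine Finset.sum_congr rfl fun p hp => ?_
        rw [mem_filter, mem_Ioc] at hp
        have : w < (p : ℝ) := (Nat.floor_lt hw0).1 hp.1.1
        rw [if_pos this]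
        ring
    · rw [Finset.disjoint_left]
      intro p hp hq
      rw [mem_filter, mem_Ioc] at hp hq
      omega
    · rw [Finset.disjoint_left]
      intro p hp hq
      rw [mem_union, mem_filter, mem_filter, mem_Ioc, mem_Ioc] at hp
      rw [mem_filter, mem_Ioc] at hq
      rcases hp with hp | hp <;> omega
  rw [hsplit]
  have h2 : ∑ p ∈ (Ioc 0 2).filter Nat.Prime, 1 / (p : ℝ) = 1 / 2 := by
    have : (Ioc 0 2).filter Nat.Prime = {2} := by decide
    rw [this]; simp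
  have h3 := abs_le.1 (hC 2 v le_rfl hv2)
  have h4 := abs_le.1 (hC v N hv2 hvN)
  have h5 : C / Real.log v ≤ C / L := div_le_div_of_nonneg_left hC0.le hL0 hlv
  have h6 : Real.log (Real.log v) ≤ Real.log (Real.log w) :=
    Real.log_le_log (by linarith) hlvw
  have h7 : ((2 : ℕ) : ℝ) = 2 := by norm_num
  rw [h7, ← hL] at h3
  have h3' := h3.2
  have h4' := h4.2
  have h8 : 0 ≤ C / L := by positivity
  have hLL : Real.log L ≤ 0 := Real.log_nonpos hL0.le (by
    rw [hL]; exact (Real.log_two_lt_d9.le.trans (by norm_num)))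
  rw [h2]
  have h9 : (1 / 2 : ℝ) * ∑ p ∈ (Ioc v N).filter Nat.Prime, 1 / (p : ℝ) ≤
      (1 / 2) * (C / L + Real.log (Real.log N) - Real.log (Real.log v)) :=
    mul_le_mul_of_nonneg_left (by linarith) (by norm_num)
  have h10 : Real.log L ≤ Real.log (Real.log v) := Real.log_le_log hL0 hlv
  linarith

theorem few : Stmt_Few := by
  intro η hη0 hη1
  obtain ⟨C, hC0, hC⟩ := sum_gg
  set K : ℝ := 2 * (Real.log 4 + 5) * C with hK
  have hK0 : 0 < K := by
    have : 0 < Real.log 4 := Real.log_pos (by norm_num)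
    positivity
  refine ⟨K + 1, η / 2, by positivity, fun N hN => ?_⟩
  have hN0 : (0 : ℝ) < N := by exact_mod_cast (by omega : 0 < N)
  have hN1 : (1 : ℝ) < N := by exact_mod_cast (by omega : 1 < N)
  have hl : 0 < Real.log N := Real.log_pos hN1
  set l := Real.log N with hldef
  set S : Set ℕ := {c : ℕ | 1 ≤ c ∧ c ≤ N ∧ ∀ r₁ r₂ : ℕ, r₁.Prime → r₂.Prime →
      Real.exp (l ^ (1 - η)) < r₁ → r₁ < r₂ → ¬ r₁ * r₂ ∣ c} with hS
  have hSN : S ⊆ ((Ioc 0 N : Finset ℕ) : Set ℕ) := by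
    intro c hc
    rw [Finset.coe_Ioc]
    exact ⟨by have := hc.1; omega, hc.2.1⟩
  have htriv : (S.ncard : ℝ) ≤ N := by
    have := Set.ncard_le_ncard hSN (Finset.finite_toSet _)
    rw [Set.ncard_coe_finset, Nat.card_Ioc, Nat.sub_zero] at this
    exact_mod_cast this
  by_cases hl1 : l < 1
  · -- small N
    refine htriv.trans ?_
    have h1 : l ^ (η / 2) ≤ 1 := Real.rpow_le_one hl.le hl1.le (by positivity)
    have h0 : 0 < l ^ (η / 2) := Real.rpow_pos_of_pos hl _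
    rw [le_div_iff₀ h0]
    nlinarith
  push Not at hl1
  set w : ℝ := Real.exp (l ^ (1 - η)) with hw
  have hpow1 : 1 ≤ l ^ (1 - η) := Real.one_le_rpow hl1 (by linarith)
  have hw2 : 2 ≤ w := by
    have := Real.add_one_le_exp (l ^ (1 - η))
    linarith
  have hwN : w ≤ N := by
    have h1 : l ^ (1 - η) ≤ l ^ (1 : ℝ) := Real.rpow_le_rpow_of_exponent_le hl1 (by linarith)
    rw [Real.rpow_one] at h1
    calc w ≤ Real.exp l := Real.exp_le_exp.2 h1
      _ = N := Real.exp_log hN0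
  have hlw : Real.log w = l ^ (1 - η) := Real.log_exp _
  -- the weight is at least 1/2 on S
  have hbig : ∀ c ∈ S, (1 : ℝ) / 2 ≤ gg w c := by
    intro c hc
    rw [gg_apply w (by have := hc.1; omega)]
    have hb : big w c ≤ 1 := by
      by_contra hcon
      push Not at hcon
      unfold big at hcon
      obtain ⟨a, b, ha, hb, hab⟩ := Finset.one_lt_card_iff.1 hcon
      rw [mem_filter, Nat.mem_primeFactors] at ha hb
      rcases lt_or_gt_of_ne hab with h | h
      · exact hc.2.2 a b ha.1.1 hb.1.1 ha.2 h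
          (Nat.Coprime.mul_dvd_of_dvd_of_dvd ((Nat.coprime_primes ha.1.1 hb.1.1).2 hab)
            ha.1.2.1 hb.1.2.1)
      · exact hc.2.2 b a hb.1.1 ha.1.1 hb.2 h
          (Nat.Coprime.mul_dvd_of_dvd_of_dvd ((Nat.coprime_primes hb.1.1 ha.1.1).2 hab.symm)
            hb.1.2.1 ha.1.2.1)
    calc (1 : ℝ) / 2 = (1 / 2) ^ 1 := by norm_num
      _ ≤ (1 / 2) ^ big w c := pow_le_pow_of_le_one (by norm_num) (by norm_num) hb
  have hcount : (S.ncard : ℝ) ≤ 2 * ∑ n ∈ Ioc 0 N, gg w n := by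
    classical
    have hfin : S.Finite := (Finset.finite_toSet _).subset hSN
    rw [Set.ncard_eq_toFinset_card S hfin]
    have h1 : (hfin.toFinset.card : ℝ) * (1 / 2) ≤ ∑ n ∈ hfin.toFinset, gg w n := by
      rw [← nsmul_eq_mul]
      exact Finset.card_nsmul_le_sum _ _ _ fun n hn => hbig n (hfin.mem_toFinset.1 hn)
    have h2 : ∑ n ∈ hfin.toFinset, gg w n ≤ ∑ n ∈ Ioc 0 N, gg w n := by
      refine Finset.sum_le_sum_of_subset_of_nonneg ?_ fun n _ _ => gg_nonneg w n
      intro n hn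
      exact_mod_cast hSN (hfin.mem_toFinset.1 hn)
    linarith
  have h1 := hall w N
  have h2 := hC w N hw2 hwN
  rw [← hldef] at h1
  have hsq : Real.sqrt (Real.log w * l) = l ^ (1 - η / 2) := by
    rw [hlw, Real.sqrt_eq_rpow]
    nth_rw 2 [← Real.rpow_one l]
    rw [← Real.rpow_add hl, ← Real.rpow_mul hl.le]
    congr 1
    ring
  rw [← hldef, hsq] at h2
  have h3 : l * ∑ n ∈ Ioc 0 N, gg w n ≤ (Real.log 4 + 5) * N * (C * l ^ (1 - η / 2)) := by
    refine h1.trans (mul_le_mul_of_nonneg_left h2 ?_)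
    have : 0 < Real.log 4 := Real.log_pos (by norm_num)
    positivity
  have h4 : ∑ n ∈ Ioc 0 N, gg w n ≤ (Real.log 4 + 5) * N * C / l ^ (η / 2) := by
    have h5 : l ^ (1 - η / 2) = l / l ^ (η / 2) := by
      rw [Real.rpow_sub hl, Real.rpow_one]
    rw [h5] at h3
    have h6 : 0 < l ^ (η / 2) := Real.rpow_pos_of_pos hl _
    have h7 : l * ∑ n ∈ Ioc 0 N, gg w n ≤ l * ((Real.log 4 + 5) * N * C / l ^ (η / 2)) := by
      refine h3.trans (le_of_eq ?_)
      ring
    exact le_of_mul_le_mul_left h7 hl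
  have h6 : 0 < l ^ (η / 2) := Real.rpow_pos_of_pos hl _
  calc (S.ncard : ℝ) ≤ 2 * ∑ n ∈ Ioc 0 N, gg w n := hcount
    _ ≤ 2 * ((Real.log 4 + 5) * N * C / l ^ (η / 2)) := by linarith
    _ = K * N / l ^ (η / 2) := by rw [hK]; ring
    _ ≤ (K + 1) * N / l ^ (η / 2) := by gcongr; linarith

end Pool.Agent.Work.MP_2738db_nt_ZZ.helper48
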