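import Pool.Agent.Work.MP_2738db_nt_ZZ.Interface

/-!
O1 (zz_blocks): small exponents, from STR, SZP, O1A.
-/

set_option autoImplicit false

namespace Pool.Agent.Work.MP_2738db_nt_ZZ.helper48

open Finset

theorem sum_rpow (X : ℕ) : ∑ d ∈ Icc 1 X, ((d : ℝ)) ^ (-(4 / 5) : ℝ) ≤ 5 * (X : ℝ) ^ (1 / 5 : ℝ) := by
  induction X with
  | zero => simp
  | succ n ih =>
    rw [← Finset.insert_Icc_right_eq_Icc_add_one (by omega : 1 ≤ n + 1), sum_insert (by simp)]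
    have hm : (0 : ℝ) < ((n + 1 : ℕ) : ℝ) := by positivity
    set m : ℝ := ((n + 1 : ℕ) : ℝ) with hmdef
    have hn : (n : ℝ) = m - 1 := by rw [hmdef]; push_cast; ring
    have hn0 : (0 : ℝ) ≤ n := Nat.cast_nonneg n
    have hb : ((n : ℝ) / m) ^ (1 / 5 : ℝ) ≤ 1 + (1 / 5) * (-(1 / m)) := by
      have e : (n : ℝ) / m = 1 + -(1 / m) := by rw [hn]; field_simp; ring
      have h0 : 0 ≤ (n : ℝ) / m := by positivity
      rw [e] at h0 ⊢
      exact rpow_one_add_le_one_add_mul_self (by linarith) (by norm_num) (by norm_num)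
    have h2 : (n : ℝ) ^ (1 / 5 : ℝ) = m ^ (1 / 5 : ℝ) * ((n : ℝ) / m) ^ (1 / 5 : ℝ) := by
      rw [← Real.mul_rpow hm.le (by positivity)]
      congr 1
      field_simp
    have h3 : m ^ (-(4 / 5) : ℝ) = m ^ (1 / 5 : ℝ) * (1 / m) := by
      have : (-(4 / 5) : ℝ) = 1 / 5 - 1 := by norm_num
      rw [this, Real.rpow_sub hm, Real.rpow_one]
      ring
    have h4 : 0 < m ^ (1 / 5 : ℝ) := Real.rpow_pos_of_pos hm _
    have h5 := mul_le_mul_of_nonneg_left hb h4.le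
    rw [← h2] at h5
    rw [h3]
    nlinarith

/-- size of `d` -/
theorem dbound {p k c d D N : ℕ} (hp : p.Prime) (h3 : 3 ≤ p) (hk : 1 ≤ k) (hc1 : 1 ≤ c) (hcN : c ≤ N)
    (h1 : D ^ p ≤ 2 ^ (p - 1) * c ^ k) (h2 : d ^ k ≤ p * D) :
    (d : ℝ) ≤ 2 * p * (N : ℝ) ^ (1 / 3 : ℝ) := by
  have hp0 : 0 < p := hp.pos
  have e1 : (d ^ p) ^ k ≤ ((2 * p) ^ p * c) ^ k := by
    calc (d ^ p) ^ k = (d ^ k) ^ p := by rw [← pow_mul, ← pow_mul, mul_comm]
      _ ≤ (p * D) ^ p := Nat.pow_le_pow_left h2 p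
      _ = p ^ p * D ^ p := mul_pow _ _ _
      _ ≤ p ^ p * (2 ^ (p - 1) * c ^ k) := Nat.mul_le_mul_left _ h1
      _ ≤ p ^ p * (2 ^ p * c ^ k) := by
          refine Nat.mul_le_mul_left _ (Nat.mul_le_mul_right _ ?_)
          exact Nat.pow_le_pow_right (by norm_num) (by omega)
      _ = (2 * p) ^ p * c ^ k := by rw [mul_pow]; ring
      _ ≤ ((2 * p) ^ p) ^ k * c ^ k := by
          refine Nat.mul_le_mul_right _ ?_
          exact Nat.le_self_pow (by omega) _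
      _ = ((2 * p) ^ p * c) ^ k := (mul_pow _ _ _).symm
  have e2 : d ^ p ≤ (2 * p) ^ p * c := (Nat.pow_le_pow_iff_left (by omega)).1 e1
  have hN1 : (1 : ℝ) ≤ N := by exact_mod_cast hc1.trans hcN
  have hp0' : (0 : ℝ) < 2 * p := by positivity
  set t : ℝ := (d : ℝ) / (2 * p) with ht
  have ht0 : 0 ≤ t := by positivity
  have htp : t ^ p ≤ N := by
    rw [ht, div_pow, div_le_iff₀ (by positivity)]
    have h4 : ((d ^ p : ℕ) : ℝ) ≤ (((2 * p) ^ p * c : ℕ) : ℝ) := by exact_mod_cast e2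
    push_cast at h4
    have h5 : (c : ℝ) ≤ N := by exact_mod_cast hcN
    calc (d : ℝ) ^ p ≤ (2 * p) ^ p * c := h4
      _ ≤ (2 * p) ^ p * N := by gcongr
      _ = N * (2 * p) ^ p := mul_comm _ _
  have ht3 : t ≤ (N : ℝ) ^ (1 / 3 : ℝ) := by
    by_cases h : t ≤ 1
    · exact h.trans (Real.one_le_rpow hN1 (by norm_num))
    · push Not at h
      have h4 : t ^ 3 ≤ N := (pow_le_pow_right₀ h.le h3).trans htp
      calc t = (t ^ 3) ^ (1 / 3 : ℝ) := by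
            rw [← Real.rpow_natCast, ← Real.rpow_mul ht0]; norm_num
        _ ≤ (N : ℝ) ^ (1 / 3 : ℝ) := Real.rpow_le_rpow (by positivity) h4 (by norm_num)
  have : (d : ℝ) = t * (2 * p) := by rw [ht]; field_simp
  rw [this]
  nlinarith

open Classical in
/-- the cell -/
noncomputable def Fc (N p k d a : ℕ) : Finset ℕ :=
  (Icc 1 (N / d)).filter (fun z : ℕ => (a = 1 ∨ (a = p ∧ p ∣ d)) ∧ ∃ Y : ℤ,
    (Y + ((d ^ k / a : ℕ) : ℤ)) ^ p - Y ^ p = (a : ℤ) * ((d ^ k / a : ℕ) : ℤ) * (z : ℤ) ^ k)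

theorem o1 : Stmt_Str → Stmt_Szp → Stmt_O1a → Stmt_O1 := by
  classical
  intro hstr hszp ho1a
  obtain ⟨C, hC1, hC⟩ := ho1a
  set δ : ℝ := 1 / (8 * (C + 4)) with hδ
  have hC4 : 0 < C + 4 := by linarith
  have hδ0 : 0 < δ := by rw [hδ]; positivity
  have hδ40 : δ ≤ 1 / 40 := by
    rw [hδ, div_le_div_iff₀ (by positivity) (by norm_num)]
    linarith
  have hδC : δ * (C + 4) = 1 / 8 := by rw [hδ]; field_simp
  refine ⟨80 * C + 64, δ, hδ0, by linarith, fun N hN => ?_⟩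
  have hN1 : (1 : ℝ) ≤ N := by exact_mod_cast hN
  have hN0 : (0 : ℝ) < N := by linarith
  set S : Set ℕ := {c : ℕ | 1 ≤ c ∧ c ≤ N ∧ ∃ p k : ℕ, p.Prime ∧ 3 ≤ p ∧ 1 ≤ k ∧
      ((p * k : ℕ) : ℝ) ≤ (N : ℝ) ^ δ ∧ ∃ x Y : ℤ, IsCoprime x Y ∧
        x ^ p - Y ^ p = (c : ℤ) ^ k} with hS
  have hSN : S ⊆ ((Icc 1 N : Finset ℕ) : Set ℕ) := by
    intro c hc
    rw [Finset.coe_Icc]
    exact ⟨hc.1, hc.2.1⟩
  have htriv : (S.ncard : ℝ) ≤ N := by
    have := Set.ncard_le_ncard hSN (Finset.finite_toSet _)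
    rw [Set.ncard_coe_finset, Nat.card_Icc, Nat.add_sub_cancel] at this
    exact_mod_cast this
  have hpow1 : (1 : ℝ) ≤ (N : ℝ) ^ (1 - δ) := Real.one_le_rpow hN1 (by linarith)
  by_cases hN64 : N < 64
  · have : (N : ℝ) ≤ 64 := by exact_mod_cast hN64.le
    refine htriv.trans (this.trans ?_)
    nlinarith
  push Not at hN64
  have hN64' : (64 : ℝ) ≤ N := by exact_mod_cast hN64
  set P : ℝ := (N : ℝ) ^ δ with hP
  have hP1 : 1 ≤ P := Real.one_le_rpow hN1 hδ0.le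
  set M : ℕ := ⌊P⌋₊ with hM
  have hMP : (M : ℝ) ≤ P := Nat.floor_le (by linarith)
  set R : ℝ := 2 * P * (N : ℝ) ^ (1 / 3 : ℝ) with hR
  have hR0 : 0 < R := by positivity
  set X : ℕ := ⌊R⌋₊ with hX
  have hXR : (X : ℝ) ≤ R := Nat.floor_le hR0.le
  -- the covering
  set T : Finset ℕ := (Icc 1 M).biUnion fun p => (Icc 1 M).biUnion fun k => (Icc 1 X).biUnion fun d =>
    ({1, p} : Finset ℕ).biUnion fun a =>
      if p.Prime ∧ 3 ≤ p ∧ ((p * k : ℕ) : ℝ) ≤ P then (Fc N p k d a).image (fun z => d * z) else ∅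
    with hT
  have hST : S ⊆ (T : Set ℕ) := by
    intro c hc
    obtain ⟨hc1, hcN, p, k, hp, h3, hk, hpk, x, Y, hxY, hxe⟩ := hc
    obtain ⟨d, z, D, hcdz, hxD, hD1, hdz, hz, hDd, hcase⟩ := hstr p x Y c k hp h3 hxY hc1 hk hxe
    have hodd : Odd p := hp.odd_of_ne_two (by omega)
    have hs := hszp p x Y D hodd hxD
    rw [hxe] at hs
    have hs' : D ^ p ≤ 2 ^ (p - 1) * c ^ k := by exact_mod_cast hs
    have hd0 : 1 ≤ d := by
      rcases Nat.eq_zero_or_pos d with h | h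
      · rw [h, zero_mul] at hcdz; omega
      · exact h
    have hz0 : 1 ≤ z := by
      rcases Nat.eq_zero_or_pos z with h | h
      · rw [h, mul_zero] at hcdz; omega
      · exact h
    have h2 : d ^ k ≤ p * D := by
      rcases hcase with h | h
      · rw [h.1]; exact Nat.le_mul_of_pos_left _ hp.pos
      · exact h.2.1.ge
    have hdb := dbound hp h3 hk hc1 hcN hs' h2
    have hp1 : (p : ℝ) ≤ P := by
      refine le_trans ?_ hpk
      exact_mod_cast Nat.le_mul_of_pos_right p hk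
    have hk1 : (k : ℝ) ≤ P := by
      refine le_trans ?_ hpk
      exact_mod_cast Nat.le_mul_of_pos_left k hp.pos
    have hdX : d ≤ X := by
      refine Nat.le_floor (hdb.trans ?_)
      rw [hR]; gcongr
    have hzN : z ≤ N / d := by
      rw [Nat.le_div_iff_mul_le hd0, mul_comm, ← hcdz]; exact hcN
    have hx : x = Y + (D : ℤ) := by rw [← hxD]; ring
    rw [hx] at hxe
    have key : ∀ a : ℕ, a ∈ ({1, p} : Finset ℕ) → (a = 1 ∨ (a = p ∧ p ∣ d)) → a * D = d ^ k →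
        c ^ k = a * D * z ^ k → c ∈ (T : Set ℕ) := by
      intro a ha ha' haD hck
      have ha0 : 0 < a := by
        rcases ha' with h | h
        · omega
        · rw [h.1]; exact hp.pos
      have hDe : d ^ k / a = D := by rw [← haD]; exact Nat.mul_div_cancel_left D ha0
      rw [Finset.mem_coe, hT]
      simp only [mem_biUnion]
      refine ⟨p, mem_Icc.2 ⟨hp.pos, Nat.le_floor hp1⟩, k, mem_Icc.2 ⟨hk, Nat.le_floor hk1⟩, d,
        mem_Icc.2 ⟨hd0, hdX⟩, a, ha, ?_⟩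
      rw [if_pos ⟨hp, h3, hpk⟩, mem_image]
      refine ⟨z, ?_, hcdz.symm⟩
      unfold Fc
      rw [mem_filter, mem_Icc, hDe]
      refine ⟨⟨hz0, hzN⟩, ha', Y, ?_⟩
      rw [hxe]
      exact_mod_cast hck
    rcases hcase with ⟨e1, e2, e3⟩ | ⟨e1, e2, e3⟩
    · exact key 1 (by simp) (Or.inl rfl) (by rw [one_mul, e1]) (by rw [one_mul]; exact e3)
    · exact key p (by simp) (Or.inr ⟨rfl, e1⟩) e2 (by rw [e3]; ring)
  have hcard : (S.ncard : ℝ) ≤ (T.card : ℝ) := by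
    have := Set.ncard_le_ncard hST (Finset.finite_toSet _)
    rw [Set.ncard_coe_finset] at this
    exact_mod_cast this
  -- the cells
  have hcell : ∀ p ∈ Icc 1 M, ∀ k ∈ Icc 1 M, ∀ d ∈ Icc 1 X, ∀ a ∈ ({1, p} : Finset ℕ),
      (((if p.Prime ∧ 3 ≤ p ∧ ((p * k : ℕ) : ℝ) ≤ P then (Fc N p k d a).image (fun z => d * z)
        else ∅ : Finset ℕ).card : ℕ) : ℝ) ≤ C * P ^ C * ((N : ℝ) ^ (4 / 5 : ℝ) *
          (d : ℝ) ^ (-(4 / 5) : ℝ)) := by
    intro p hpM k hkM d hdX a ha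
    rw [mem_Icc] at hpM hkM hdX
    have hd0 : (0 : ℝ) < d := by exact_mod_cast hdX.1
    have hrhs : 0 ≤ C * P ^ C * ((N : ℝ) ^ (4 / 5 : ℝ) * (d : ℝ) ^ (-(4 / 5) : ℝ)) := by positivity
    split_ifs with hv
    · obtain ⟨hp, h3, hpk⟩ := hv
      by_cases hva : a = 1 ∨ (a = p ∧ p ∣ d)
      · have ha0 : 0 < a := by
          rcases hva with h | h
          · omega
          · rw [h.1]; exact hp.pos
        have hadk : a ∣ d ^ k := by
          rcases hva with h | h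
          · rw [h]; exact one_dvd _
          · rw [h.1]; exact h.2.trans (dvd_pow_self d (by omega))
        have hdR : (d : ℝ) ≤ R := le_trans (by exact_mod_cast hdX.2) hXR
        -- d <= Z ^ 2
        have hd3 : 4 * (d : ℝ) ^ 3 ≤ (N : ℝ) ^ 2 := by
          have h1 : (d : ℝ) ^ 3 ≤ R ^ 3 := pow_le_pow_left₀ hd0.le hdR 3
          have h2 : R ^ 3 = 8 * P ^ 3 * N := by
            rw [hR, mul_pow, mul_pow]
            have : ((N : ℝ) ^ (1 / 3 : ℝ)) ^ 3 = N := by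
              rw [← Real.rpow_natCast, ← Real.rpow_mul hN0.le]; norm_num
            rw [this]; norm_num
          have h3 : P ^ 3 ≤ (N : ℝ) ^ (1 / 6 : ℝ) := by
            rw [hP, ← Real.rpow_natCast, ← Real.rpow_mul hN0.le]
            refine Real.rpow_le_rpow_of_exponent_le hN1 ?_
            push_cast
            linarith
          have h4 : (32 : ℝ) * (N : ℝ) ^ (1 / 6 : ℝ) ≤ N := by
            have h5 : (N : ℝ) = (N : ℝ) ^ (5 / 6 : ℝ) * (N : ℝ) ^ (1 / 6 : ℝ) := by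
              rw [← Real.rpow_add hN0]; norm_num
            have h6 : (32 : ℝ) ≤ (N : ℝ) ^ (5 / 6 : ℝ) := by
              calc (32 : ℝ) = ((2 : ℝ) ^ (6 : ℝ)) ^ (5 / 6 : ℝ) := by
                    rw [← Real.rpow_mul (by norm_num)]; norm_num
                _ = (64 : ℝ) ^ (5 / 6 : ℝ) := by norm_num
                _ ≤ (N : ℝ) ^ (5 / 6 : ℝ) := Real.rpow_le_rpow (by norm_num) hN64' (by norm_num)
            have h7 : 0 ≤ (N : ℝ) ^ (1 / 6 : ℝ) := by positivity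
            calc (32 : ℝ) * (N : ℝ) ^ (1 / 6 : ℝ) ≤ (N : ℝ) ^ (5 / 6 : ℝ) * (N : ℝ) ^ (1 / 6 : ℝ) :=
                  mul_le_mul_of_nonneg_right h6 h7
              _ = N := h5.symm
          calc 4 * (d : ℝ) ^ 3 ≤ 4 * (8 * P ^ 3 * N) := by rw [← h2]; linarith
            _ ≤ 4 * (8 * (N : ℝ) ^ (1 / 6 : ℝ) * N) := by gcongr
            _ = (32 * (N : ℝ) ^ (1 / 6 : ℝ)) * N := by ring
            _ ≤ N * N := mul_le_mul_of_nonneg_right h4 hN0.le
            _ = (N : ℝ) ^ 2 := by ring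
        have hdN : (d : ℝ) ≤ N := by
          by_contra hcon
          push Not at hcon
          have hd1 : (1 : ℝ) ≤ d := by exact_mod_cast hdX.1
          nlinarith [sq_nonneg ((d : ℝ) - N)]
        have hZ1 : 1 ≤ N / d := (Nat.one_le_div_iff hdX.1).2 (by exact_mod_cast hdN)
        have hZle : ((N / d : ℕ) : ℝ) ≤ (N : ℝ) / d := Nat.cast_div_le
        have hZge : (N : ℝ) / d ≤ 2 * ((N / d : ℕ) : ℝ) := by
          have h1 : (N : ℝ) / d ≤ ((N / d : ℕ) : ℝ) + 1 := by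
            rw [div_le_iff₀ hd0]
            have h2 := Nat.div_add_mod N d
            have h3 := Nat.mod_lt N hdX.1
            have h4 : N ≤ (N / d + 1) * d := by nlinarith
            exact_mod_cast h4
          have h5 : (1 : ℝ) ≤ ((N / d : ℕ) : ℝ) := by exact_mod_cast hZ1
          linarith
        have hdZ : d ≤ (N / d) ^ 2 := by
          have h1 : (d : ℝ) ≤ ((N / d : ℕ) : ℝ) ^ 2 := by
            have h2 : ((N : ℝ) / d) ^ 2 ≤ 4 * ((N / d : ℕ) : ℝ) ^ 2 := by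
              have := pow_le_pow_left₀ (by positivity : (0 : ℝ) ≤ (N : ℝ) / d) hZge 2
              linarith [this, mul_pow (2 : ℝ) ((N / d : ℕ) : ℝ) 2]
            have h3 : 4 * (d : ℝ) ≤ ((N : ℝ) / d) ^ 2 := by
              rw [div_pow, le_div_iff₀ (by positivity)]
              calc 4 * (d : ℝ) * (d : ℝ) ^ 2 = 4 * (d : ℝ) ^ 3 := by ring
                _ ≤ (N : ℝ) ^ 2 := hd3
            linarith
          exact_mod_cast h1
        have hD1 : 1 ≤ d ^ k / a :=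
          (Nat.one_le_div_iff ha0).2 (Nat.le_of_dvd (pow_pos hdX.1 _) hadk)
        have hDd : ∀ r : ℕ, r.Prime → r ∣ d ^ k / a → r ∣ d := by
          intro r hr hrd
          exact hr.dvd_of_dvd_pow (hrd.trans (Nat.div_dvd_of_dvd hadk))
        have hb := hC p k d (d ^ k / a) a (N / d) hp h3 hkM.1 hdX.1 hZ1 hdZ hD1 hDd
          (hva.imp id And.left)
        have hset : (Fc N p k d a).card ≤ ({z : ℕ | 1 ≤ z ∧ z ≤ N / d ∧ ∃ Y : ℤ,
            (Y + ((d ^ k / a : ℕ) : ℤ)) ^ p - Y ^ p =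
              (a : ℤ) * ((d ^ k / a : ℕ) : ℤ) * (z : ℤ) ^ k}.ncard : ℕ) := by
          rw [← Set.ncard_coe_finset]
          refine Set.ncard_le_ncard ?_ ?_
          · intro z hz
            rw [Finset.mem_coe] at hz
            unfold Fc at hz
            rw [mem_filter, mem_Icc] at hz
            exact ⟨hz.1.1, hz.1.2, hz.2.2⟩
          · exact (Set.finite_Icc 1 (N / d)).subset fun z hz => ⟨hz.1, hz.2.1⟩
        have hpk' : (p : ℝ) * k ≤ P := by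
          have : ((p * k : ℕ) : ℝ) = (p : ℝ) * k := by push_cast; ring
          rw [← this]; exact hpk
        calc (((Fc N p k d a).image (fun z => d * z)).card : ℝ) ≤ ((Fc N p k d a).card : ℝ) := by
              exact_mod_cast Finset.card_image_le
          _ ≤ _ := by exact_mod_cast hset
          _ ≤ C * ((p : ℝ) * k) ^ C * ((N / d : ℕ) : ℝ) ^ (4 / 5 : ℝ) := hb
          _ ≤ C * P ^ C * ((N : ℝ) / d) ^ (4 / 5 : ℝ) := by gcongr
          _ = C * P ^ C * ((N : ℝ) ^ (4 / 5 : ℝ) * (d : ℝ) ^ (-(4 / 5) : ℝ)) := by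
              rw [Real.div_rpow hN0.le hd0.le, Real.rpow_neg hd0.le, div_eq_mul_inv]
      · have : Fc N p k d a = ∅ := by
          unfold Fc
          rw [Finset.filter_eq_empty_iff]
          intro z _ h
          exact hva h.1
        rw [this]
        simpa using hrhs
    · simpa using hrhs
  have hT' : (T.card : ℝ) ≤ ∑ p ∈ Icc 1 M, ∑ k ∈ Icc 1 M, ∑ d ∈ Icc 1 X,
      2 * (C * P ^ C * ((N : ℝ) ^ (4 / 5 : ℝ) * (d : ℝ) ^ (-(4 / 5) : ℝ))) := by
    have h1 : (T.card : ℝ) ≤ ((∑ p ∈ Icc 1 M, ∑ k ∈ Icc 1 M, ∑ d ∈ Icc 1 X,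
        ∑ a ∈ ({1, p} : Finset ℕ), (if p.Prime ∧ 3 ≤ p ∧ ((p * k : ℕ) : ℝ) ≤ P then
          (Fc N p k d a).image (fun z => d * z) else ∅ : Finset ℕ).card : ℕ) : ℝ) := by
      have : T.card ≤ ∑ p ∈ Icc 1 M, ∑ k ∈ Icc 1 M, ∑ d ∈ Icc 1 X,
        ∑ a ∈ ({1, p} : Finset ℕ), (if p.Prime ∧ 3 ≤ p ∧ ((p * k : ℕ) : ℝ) ≤ P then
          (Fc N p k d a).image (fun z => d * z) else ∅ : Finset ℕ).card := by
        refine Finset.card_biUnion_le.trans (Finset.sum_le_sum fun p _ => ?_)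
        refine Finset.card_biUnion_le.trans (Finset.sum_le_sum fun k _ => ?_)
        refine Finset.card_biUnion_le.trans (Finset.sum_le_sum fun d _ => ?_)
        exact Finset.card_biUnion_le
      exact_mod_cast this
    refine h1.trans ?_
    push_cast
    refine Finset.sum_le_sum fun p hp => Finset.sum_le_sum fun k hk => Finset.sum_le_sum
      fun d hd => ?_
    have h2 : ∑ a ∈ ({1, p} : Finset ℕ), (((if p.Prime ∧ 3 ≤ p ∧ ((p * k : ℕ) : ℝ) ≤ P then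
        (Fc N p k d a).image (fun z => d * z) else ∅ : Finset ℕ).card : ℕ) : ℝ) ≤
        ∑ _a ∈ ({1, p} : Finset ℕ), (C * P ^ C * ((N : ℝ) ^ (4 / 5 : ℝ) *
          (d : ℝ) ^ (-(4 / 5) : ℝ))) := Finset.sum_le_sum fun a ha => hcell p hp k hk d hd a ha
    have h3 : ((({1, p} : Finset ℕ).card : ℕ) : ℝ) ≤ 2 := by exact_mod_cast Finset.card_le_two
    have hd0 : (0 : ℝ) < d := by exact_mod_cast (mem_Icc.1 hd).1
    rw [sum_const, nsmul_eq_mul] at h2
    push_cast at h2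
    refine h2.trans ?_
    gcongr
  have hsum : ∑ p ∈ Icc 1 M, ∑ k ∈ Icc 1 M, ∑ d ∈ Icc 1 X,
      2 * (C * P ^ C * ((N : ℝ) ^ (4 / 5 : ℝ) * (d : ℝ) ^ (-(4 / 5) : ℝ))) ≤
      P * (P * (2 * (C * P ^ C * ((N : ℝ) ^ (4 / 5 : ℝ) * (5 * R ^ (1 / 5 : ℝ)))))) := by
    have h1 : ∑ d ∈ Icc 1 X, 2 * (C * P ^ C * ((N : ℝ) ^ (4 / 5 : ℝ) * (d : ℝ) ^ (-(4 / 5) : ℝ))) ≤
        2 * (C * P ^ C * ((N : ℝ) ^ (4 / 5 : ℝ) * (5 * R ^ (1 / 5 : ℝ)))) := by
      rw [← Finset.mul_sum, ← Finset.mul_sum, ← Finset.mul_sum]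
      have h2 := sum_rpow X
      have h3 : (X : ℝ) ^ (1 / 5 : ℝ) ≤ R ^ (1 / 5 : ℝ) :=
        Real.rpow_le_rpow (Nat.cast_nonneg _) hXR (by norm_num)
      have h4 : ∑ d ∈ Icc 1 X, ((d : ℝ)) ^ (-(4 / 5) : ℝ) ≤ 5 * R ^ (1 / 5 : ℝ) := by linarith
      gcongr
    rw [sum_const, sum_const, nsmul_eq_mul, nsmul_eq_mul, Nat.card_Icc, Nat.add_sub_cancel]
    have h5 : 0 ≤ 2 * (C * P ^ C * ((N : ℝ) ^ (4 / 5 : ℝ) * (5 * R ^ (1 / 5 : ℝ)))) := by positivity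
    have h6 : 0 ≤ ∑ d ∈ Icc 1 X, 2 * (C * P ^ C * ((N : ℝ) ^ (4 / 5 : ℝ) *
        (d : ℝ) ^ (-(4 / 5) : ℝ))) := Finset.sum_nonneg fun d _ => by positivity
    gcongr
  have hfin : P * (P * (2 * (C * P ^ C * ((N : ℝ) ^ (4 / 5 : ℝ) * (5 * R ^ (1 / 5 : ℝ)))))) ≤
      80 * C * (N : ℝ) ^ (1 - δ) := by
    have h1 : R ^ (1 / 5 : ℝ) ≤ 2 * (N : ℝ) ^ (δ / 5 + 1 / 15 : ℝ) := by
      rw [hR, hP, Real.mul_rpow (by positivity) (by positivity), Real.mul_rpow (by norm_num)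
        (by positivity), ← Real.rpow_mul hN0.le, ← Real.rpow_mul hN0.le, mul_assoc,
        ← Real.rpow_add hN0]
      have h2 : (2 : ℝ) ^ (1 / 5 : ℝ) ≤ 2 := by
        calc (2 : ℝ) ^ (1 / 5 : ℝ) ≤ (2 : ℝ) ^ (1 : ℝ) :=
              Real.rpow_le_rpow_of_exponent_le (by norm_num) (by norm_num)
          _ = 2 := Real.rpow_one 2
      have e : (δ * (1 / 5) + 1 / 3 * (1 / 5) : ℝ) = δ / 5 + 1 / 15 := by ring
      rw [e]
      exact mul_le_mul_of_nonneg_right h2 (by positivity)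
    have h2 : P ^ C = (N : ℝ) ^ (δ * C) := by rw [hP, ← Real.rpow_mul hN0.le]
    calc P * (P * (2 * (C * P ^ C * ((N : ℝ) ^ (4 / 5 : ℝ) * (5 * R ^ (1 / 5 : ℝ))))))
        ≤ P * (P * (2 * (C * P ^ C * ((N : ℝ) ^ (4 / 5 : ℝ) *
          (5 * (2 * (N : ℝ) ^ (δ / 5 + 1 / 15 : ℝ))))))) := by gcongr
      _ = 20 * C * ((N : ℝ) ^ δ * (N : ℝ) ^ δ * (N : ℝ) ^ (δ * C) * (N : ℝ) ^ (4 / 5 : ℝ) *
          (N : ℝ) ^ (δ / 5 + 1 / 15 : ℝ)) := by rw [h2, hP]; ring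
      _ = 20 * C * (N : ℝ) ^ (δ + δ + δ * C + 4 / 5 + (δ / 5 + 1 / 15)) := by
          rw [← Real.rpow_add hN0, ← Real.rpow_add hN0, ← Real.rpow_add hN0, ← Real.rpow_add hN0]
      _ ≤ 20 * C * (N : ℝ) ^ (1 - δ) := by
          have h3 : δ + δ + δ * C + 4 / 5 + (δ / 5 + 1 / 15) ≤ 1 - δ := by nlinarith
          have h4 := Real.rpow_le_rpow_of_exponent_le hN1 h3
          gcongr
      _ ≤ 80 * C * (N : ℝ) ^ (1 - δ) := by
          have h5 : 0 ≤ C * (N : ℝ) ^ (1 - δ) := by positivity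
          linarith
  have := hcard.trans (hT'.trans (hsum.trans hfin))
  linarith

end Pool.Agent.Work.MP_2738db_nt_ZZ.helper48
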